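import Pool.Agent.H162R2.LC.Stmts

set_option autoImplicit false

open Finset

namespace H162R2.LC

open Classical in
/-- the edges of `G` inside `S` -/
noncomputable def taskE_in {n : ℕ} (G : SimpleGraph (Fin n)) (S : Finset (Fin n)) :
    Finset (Sym2 (Fin n)) :=
  univ.filter fun e : Sym2 (Fin n) => e ∈ G.edgeSet ∧ ∀ u ∈ e, u ∈ S

theorem taskE_card {n : ℕ} (G : SimpleGraph (Fin n)) (S : Finset (Fin n)) :
    eIn G S = (taskE_in G S).card := by
  unfold eIn taskE_in
  congr

theorem taskE_sub {n : ℕ} (p : Fin n → ℝ × ℝ) (G : SimpleGraph (Fin n)) (a b c : ℝ)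
    (hav : Avoids p a b c) (A : Finset (Fin n)) :
    taskE_in G A ⊆ (taskE_in G (A.filter fun u => 0 < aff a b c (p u)) ∪
      taskE_in G (A.filter fun u => aff a b c (p u) < 0)) ∪ sepE p G a b c := by
  classical
  intro e he
  unfold taskE_in at he
  rw [Finset.mem_filter] at he
  obtain ⟨-, heG, heA⟩ := he
  induction e with
  | _ u v =>
  have huA : u ∈ A := heA u (by simp)
  have hvA : v ∈ A := heA v (by simp)
  rcases lt_or_gt_of_ne (hav.2 u) with hu | hu <;> rcases lt_or_gt_of_ne (hav.2 v) with hv | hv
  · apply Finset.mem_union_left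
    apply Finset.mem_union_right
    unfold taskE_in
    rw [Finset.mem_filter]
    refine ⟨Finset.mem_univ _, heG, ?_⟩
    intro w hw
    rw [Sym2.mem_iff] at hw
    rcases hw with rfl | rfl
    · exact Finset.mem_filter.mpr ⟨huA, hu⟩
    · exact Finset.mem_filter.mpr ⟨hvA, hv⟩
  · apply Finset.mem_union_right
    unfold sepE
    rw [Finset.mem_filter]
    exact ⟨Finset.mem_univ _, heG, v, u, Sym2.eq_swap, hv, hu⟩
  · apply Finset.mem_union_right
    unfold sepE
    rw [Finset.mem_filter]
    exact ⟨Finset.mem_univ _, heG, u, v, rfl, hu, hv⟩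
  · apply Finset.mem_union_left
    apply Finset.mem_union_left
    unfold taskE_in
    rw [Finset.mem_filter]
    refine ⟨Finset.mem_univ _, heG, ?_⟩
    intro w hw
    rw [Sym2.mem_iff] at hw
    rcases hw with rfl | rfl
    · exact Finset.mem_filter.mpr ⟨huA, hu⟩
    · exact Finset.mem_filter.mpr ⟨hvA, hv⟩

theorem t_E : T_E := by
  classical
  intro n p G a b c hav A B hAB
  simp only [taskE_card]
  have hdisj : Disjoint (taskE_in G A) (taskE_in G B) := by
    rw [Finset.disjoint_left]
    intro e hA hB
    unfold taskE_in at hA hB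
    rw [Finset.mem_filter] at hA hB
    induction e with
    | _ u v =>
    exact Finset.disjoint_left.mp hAB (hA.2.2 u (by simp)) (hB.2.2 u (by simp))
  rw [← Finset.card_union_of_disjoint hdisj]
  have hsub : taskE_in G A ∪ taskE_in G B ⊆
      ((taskE_in G (A.filter fun u => 0 < aff a b c (p u)) ∪
        taskE_in G (B.filter fun u => 0 < aff a b c (p u))) ∪
      (taskE_in G (A.filter fun u => aff a b c (p u) < 0) ∪
        taskE_in G (B.filter fun u => aff a b c (p u) < 0))) ∪ sepE p G a b c := by
    intro e he
    rcases Finset.mem_union.mp he with h | h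
    · have := taskE_sub p G a b c hav A h
      simp only [Finset.mem_union] at this ⊢
      tauto
    · have := taskE_sub p G a b c hav B h
      simp only [Finset.mem_union] at this ⊢
      tauto
  refine (Finset.card_le_card hsub).trans ((Finset.card_union_le _ _).trans ?_)
  refine Nat.add_le_add_right ((Finset.card_union_le _ _).trans ?_) _
  exact Nat.add_le_add (Finset.card_union_le _ _) (Finset.card_union_le _ _)

end H162R2.LC
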